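import Pool.Agent.P.MP_7ffab6_lc.GLC.All

namespace Pool.Agent.Results.MP_7ffab6_lc.AverageSensitivity

open Pool.Agent.P.MP_7ffab6_lc.GLC Finset

/-- For a real polynomial `p` of degree at most `D` in 0/1 variables and `m` pairwise disjoint sets
of variables, the expected number of sets whose flip changes the truth value of `1/2 ≤ p` is at
most `6 D √m`. -/
theorem result (ι : Type) [Fintype ι] [DecidableEq ι] (D m : ℕ) (p : MvPolynomial ι ℝ)
    (hp : p.totalDegree ≤ D) (B : Fin m → Finset ι)
    (hB : ∀ j k, j ≠ k → Disjoint (B j) (B k)) :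
    (∑ x : ι → Bool, (Set.ncard {j : Fin m |
        ¬ (1 / 2 ≤ MvPolynomial.eval (fun e => if x e = true then (1 : ℝ) else 0) p ↔
          1 / 2 ≤ MvPolynomial.eval
            (fun e => if (if e ∈ B j then !x e else x e) = true then (1 : ℝ) else 0) p)} : ℝ)) /
      Fintype.card (ι → Bool) ≤ 6 * D * √(m : ℝ) := by
  classical
  have h := q_BLK ι D m _ (1 / 2) (p_POLY ι D p hp) B hB
    (fun x => univ.filter fun j : Fin m =>
      ¬ (1 / 2 ≤ MvPolynomial.eval (fun e => if x e = true then (1 : ℝ) else 0) p ↔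
        1 / 2 ≤ MvPolynomial.eval
          (fun e => if (if e ∈ B j then !x e else x e) = true then (1 : ℝ) else 0) p))
    fun x j hj => (mem_filter.1 hj).2
  rw [div_le_iff₀ (by positivity)]
  simp only [Fintype.card_pi, Fintype.card_bool, prod_const, card_univ, Nat.cast_pow,
    Nat.cast_ofNat]
  refine le_trans (le_of_eq (sum_congr rfl fun x _ => ?_)) h
  rw [← Set.ncard_coe_finset, coe_filter]
  simp

end Pool.Agent.Results.MP_7ffab6_lc.AverageSensitivity
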