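import Pool.Agent.P.MP_7ffab6_lc.Gr3

namespace Pool.Agent.Results.MP_7ffab6_lc.GreedyDegree

open Pool.Agent.P.MP_7ffab6_lc

/-- For `n ≥ 2 K 2 ^ K` some polynomial map of degree at most `68 K ^ 2` and mean square norm at
most `4 K` outputs a clique of size exactly `K` with probability at least `1 - 2 exp (-K)`. -/
theorem result (K n : ℕ) (hK : 0 < K) (hn : 2 * K * 2 ^ K ≤ n) :
    ∃ f : Fin n → MvPolynomial (Edge n) ℝ, (∀ i, (f i).totalDegree ≤ 68 * K ^ 2) ∧
      (∑ x : Edge n → Bool, ∑ i, value (f i) x ^ 2) / Fintype.card (Edge n → Bool) ≤ 4 * K ∧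
      1 - 2 * Real.exp (-K) ≤ (Set.ncard {x : Edge n → Bool | (graphOf x).IsClique (output f x) ∧
        (output f x).ncard = K} : ℝ) / Fintype.card (Edge n → Bool) :=
  Gr.upper K n hK hn

end Pool.Agent.Results.MP_7ffab6_lc.GreedyDegree
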