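import Pool.Agent.P.MP_7ffab6_lc.Opt5

namespace Pool.Agent.Results.MP_7ffab6_lc.LogSquared

open Pool.Agent.P.MP_7ffab6_lc

/-- Polynomial maps of degree at most `δ k ^ 2` output a set containing a clique of size `k` with
probability at most `(1 + mean square norm) 2 ^ (-(1/2 - η) k)`, the norm being taken after any
affine rescaling which fixes the threshold `1/2`. -/
theorem result (η : ℝ) (hη : 0 < η) : ∃ δ : ℝ, 0 < δ ∧ ∃ k0 : ℕ, ∀ k ≥ k0, ∀ (n : ℕ)
    (f : Fin n → MvPolynomial (Edge n) ℝ) (a : Fin n → ℝ), (∀ i, a i < 1 / 2) →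
      (∀ i, ((f i).totalDegree : ℝ) ≤ δ * k ^ 2) →
      (Set.ncard {x : Edge n → Bool | ∃ K : Finset (Fin n), (K : Set (Fin n)) ⊆ output f x ∧
          (graphOf x).IsClique (K : Set (Fin n)) ∧ k ≤ K.card} : ℝ) /
        Fintype.card (Edge n → Bool) ≤
      (1 + (∑ x : Edge n → Bool, ∑ i, ((value (f i) x - a i) / (1 - 2 * a i)) ^ 2) /
        Fintype.card (Edge n → Bool)) * (2 : ℝ) ^ (-(1 / 2 - η) * k) :=
  Opt.final η hη

end Pool.Agent.Results.MP_7ffab6_lc.LogSquared
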