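import Pool.Agent.P.MP_7ffab6_lc.SD.All

namespace Pool.Agent.Results.MP_7ffab6_lc.SmallDegree

open Pool.Agent.P.MP_7ffab6_lc

/-- Polynomial maps of degree at most `c log n`, with no bound on their size, output a clique
with at least `α log n` vertices with probability at most `n ^ (-A)`. -/
theorem result (α A : ℝ) (hα : 0 < α) : ∃ c : ℝ, 0 < c ∧ ∃ n0 : ℕ, ∀ n ≥ n0,
    ∀ f : Fin n → MvPolynomial (Edge n) ℝ, (∀ i, ((f i).totalDegree : ℝ) ≤ c * Real.logb 2 n) →
      (Set.ncard {x : Edge n → Bool | (graphOf x).IsClique (output f x) ∧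
        α * Real.logb 2 n ≤ (output f x).ncard} : ℝ) / Fintype.card (Edge n → Bool) ≤
        (n : ℝ) ^ (-A) :=
  SD.small_degree α A hα

end Pool.Agent.Results.MP_7ffab6_lc.SmallDegree
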